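import Pool.Agent.H.MP_e1e5e2_ag.A

set_option autoImplicit false

namespace Pool.Agent.Jet

open MvPolynomial

variable {k : Type} [Field k]

lemma alg {R : Type} [CommRing R] {x0 x1 x2 x3 x4 y0 y1 y2 y3 y4 : R}
    (c0 : x0 * x1 * x2 = 0) (c3 : x3 * x4 * x0 = 0) (c4 : x4 * x0 * x1 = 0)
    (q0 : y0 * x1 * x2 + x0 * y1 * x2 + x0 * x1 * y2 = 0)
    (q4 : y4 * x0 * x1 + x4 * y0 * x1 + x4 * x0 * y1 = 0) :
    x0 ^ 2 * (x0 * x1 * y2 * y3 * y4 + x1 * x2 * y3 * y4 * y0 + x2 * x3 * y4 * y0 * y1 +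
      x3 * x4 * y0 * y1 * y2 + x4 * x0 * y1 * y2 * y3) = 0 := by
  linear_combination (x0 ^ 2 * y2 * y3 - x0 * x3 * y0 * y2) * q4 + x0 * x3 * y0 * y4 * q0 +
    (x0 * y0 * y3 * y4 - x3 * y0 ^ 2 * y4) * c0 - x0 * y0 * y2 * y3 * c4 +
    (2 * x0 * y0 * y1 * y2 + x1 * y0 ^ 2 * y2) * c3

variable (k) in
/-- Evaluation at a point of the embedded component. -/
noncomputable def ev : MvPolynomial (Fin 5 × Fin 2) k →+* k :=
  eval fun p => if p.2 = 0 then 0 else 1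

variable (k) in
/-- A first order operator. -/
noncomputable def D (i : Fin 5) : Derivation k (MvPolynomial (Fin 5 × Fin 2) k)
    (MvPolynomial (Fin 5 × Fin 2) k) := pderiv (i, 0)

variable (k) in
/-- An ideal cut out by differential conditions. -/
noncomputable def KK : Ideal (MvPolynomial (Fin 5 × Fin 2) k) where
  carrier := {f | ev k f = 0 ∧ (∀ i, ev k (D k i f) = 0) ∧
    ev k (D k 0 (D k 1 f)) = ev k (D k 0 (D k 2 f)) + ev k (D k 1 (D k 4 f))}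
  zero_mem' := by simp
  add_mem' := by
    rintro a b ⟨h1, h2, h3⟩ ⟨h4, h5, h6⟩
    refine ⟨by simp [h1, h4], fun i => by simp [h2, h5], ?_⟩
    simp only [map_add, h3, h6]
    ring
  smul_mem' := by
    rintro a b ⟨h1, h2, h3⟩
    refine ⟨by simp [h1], fun i => by simp [h1, h2], ?_⟩
    simp [h1, h2, h3, mul_add]

lemma ev0 (i : Fin 5) : ev k (X (i, 0)) = 0 := by simp [ev]
lemma ev1 (i : Fin 5) : ev k (X (i, 1)) = 1 := by simp [ev]
lemma D0 (i j : Fin 5) : D k i (X (j, 0)) = if j = i then 1 else 0 := by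
  simp [D, pderiv_X, Pi.single_apply]
lemma D1 (i j : Fin 5) : D k i (X (j, 1)) = 0 := by
  simp [D, pderiv_X]

lemma cub (a : Fin 5) : X (a, 0) * X (a + 1, 0) * X (a + 2, 0) ∈ KK k :=
  ⟨by simp [ev0], fun i => by simp [ev0], by fin_cases a <;> simp [ev0, D0]⟩

lemma quad (a : Fin 5) : X (a, 1) * X (a + 1, 0) * X (a + 2, 0) +
    X (a, 0) * X (a + 1, 1) * X (a + 2, 0) + X (a, 0) * X (a + 1, 0) * X (a + 2, 1) ∈ KK k :=
  ⟨by simp [ev0], fun i => by simp [ev0], by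
    fin_cases a <;> simp [ev1, D0, D1]⟩

variable (k) in
/-- The element supported on the embedded component. -/
noncomputable def gg : MvPolynomial (Fin 5 × Fin 2) k :=
  ∑ a, X (a, 0) * X (a + 1, 0) * X (a + 2, 1) * X (a + 3, 1) * X (a + 4, 1)

lemma gg_not : gg k ∉ KK k := fun h => by
  have := h.2.2
  simp [gg, Fin.sum_univ_five, ev1, D0, D1] at this

lemma gg_ann {J : Ideal (MvPolynomial (Fin 5 × Fin 2) k)}
    (h1 : ∀ a : Fin 5, X (a, 0) * X (a + 1, 0) * X (a + 2, 0) ∈ J)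
    (h2 : ∀ a : Fin 5, X (a, 1) * X (a + 1, 0) * X (a + 2, 0) +
      X (a, 0) * X (a + 1, 1) * X (a + 2, 0) + X (a, 0) * X (a + 1, 0) * X (a + 2, 1) ∈ J)
    (a : Fin 5) : X (a, 0) ^ 2 * gg k ∈ J := by
  simp only [← Ideal.Quotient.eq_zero_iff_mem, map_mul, map_add, map_pow, gg, Fin.sum_univ_five]
    at h1 h2 ⊢
  fin_cases a
  · exact alg (h1 0) (h1 3) (h1 4) (h2 0) (h2 4)
  · have := alg (y3 := Ideal.Quotient.mk J (X (4, 1))) (h1 1) (h1 4) (h1 0) (h2 1) (h2 0)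
    refine Eq.trans ?_ this
    simp
    ring
  · have := alg (y3 := Ideal.Quotient.mk J (X (0, 1))) (h1 2) (h1 0) (h1 1) (h2 2) (h2 1)
    refine Eq.trans ?_ this
    simp
    ring
  · have := alg (y3 := Ideal.Quotient.mk J (X (1, 1))) (h1 3) (h1 1) (h1 2) (h2 3) (h2 2)
    refine Eq.trans ?_ this
    simp
    ring
  · have := alg (y3 := Ideal.Quotient.mk J (X (2, 1))) (h1 4) (h1 2) (h1 3) (h2 4) (h2 3)
    refine Eq.trans ?_ this
    simp
    ring

end Pool.Agent.Jet
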